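import Pool.Agent.Helper14.CPX.DIG2

/-! Row FARKAS. -/

set_option autoImplicit false

namespace Pool.Agent.Helper81.CPX

open Pool.Agent.Helper14.CPX

theorem corner_true {K n : ℕ} {f : ℕ → ℕ → ℕ → ℕ → Bool} (h : corner K n false f = true) :
    ∃ i j l, i < j ∧ j < l ∧ l < K ∧
      f (Nat.shiftRight n 12) (tri j + i) (tri l + i) (tri l + j) = true := by
  unfold corner at h
  simp only [force_eq] at h
  cases h1 : (and (Nat.blt (Nat.mod n 16) (Nat.mod (Nat.shiftRight n 4) 16))
      (and (Nat.blt (Nat.mod (Nat.shiftRight n 4) 16) (Nat.mod (Nat.shiftRight n 8) 16))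
        (Nat.blt (Nat.mod (Nat.shiftRight n 8) 16) K)))
  · rw [h1] at h
    exact absurd h (by exact Bool.false_ne_true)
  · rw [h1] at h
    rw [Bool.and_eq_true, Bool.and_eq_true, blt_iff, blt_iff, blt_iff] at h1
    exact ⟨_, _, _, h1.1, h1.2.1, h1.2.2, h⟩

theorem opp_lt {K i j l x : ℕ} (hij : i < j) (hjl : j < l) (hl : l < K) :
    opp x (tri j + i) (tri l + i) (tri l + j) < tri K := by
  have h1 : tri j + i < tri K := tri_lt hij (by omega)
  have h2 : tri l + i < tri K := tri_lt (by omega) hl
  have h3 : tri l + j < tri K := tri_lt hjl hl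
  unfold opp sel
  cases Nat.beq x 0 <;> cases Nat.beq x 1 <;> simpa

theorem eqv_len {K C : ℕ} {len : ℕ → ℝ} {α β : ℝ} (h : SemC K C len α β) {e f : ℕ} (he : e < tri K)
    (hf : f < tri K) (hh : eqv C e f = true) : len e = len f := by
  unfold eqv at hh
  rw [Bool.or_eq_true, beq_iff] at hh
  rcases hh with rfl | hh
  · rfl
  · cases h1 : Nat.beq (cls C e) (cls C f)
    · rw [h1] at hh; exact absurd hh (by exact Bool.false_ne_true)
    · rw [h1] at hh
      change (_ || _) = true at hh
      rw [Bool.or_eq_true, beq_iff, beq_iff] at hh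
      rw [beq_iff] at h1
      obtain ⟨-, -, a2, -, a4, -⟩ := h e he
      obtain ⟨-, -, b2, -, b4, -⟩ := h f hf
      rcases hh with hh | hh
      · rw [a2 hh, b2 (h1 ▸ hh)]
      · rw [a4 hh, b4 (h1 ▸ hh)]

theorem ltc_len {K C : ℕ} {len : ℕ → ℝ} {α β : ℝ} (hαβ : α < β) (h : SemC K C len α β) {e f : ℕ}
    (he : e < tri K) (hf : f < tri K) (hh : ltc C e f = true) : len e < len f := by
  unfold ltc at hh
  rw [Bool.and_eq_true, blt_iff, blt_iff] at hh
  obtain ⟨a0, a1, a2, a3, a4, a5⟩ := h e he
  obtain ⟨b0, b1, b2, b3, b4, b5⟩ := h f hf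
  have hc : cls C e = 1 ∨ cls C e = 2 ∨ cls C e = 3 ∨ cls C e = 4 := by omega
  have hd : cls C f = 2 ∨ cls C f = 3 ∨ cls C f = 4 ∨ cls C f = 5 := by omega
  rcases hc with hc | hc | hc | hc <;> rcases hd with hd | hd | hd | hd
  all_goals first
    | (exfalso; omega)
    | skip
  · linarith [a1 hc, b2 hd]
  · linarith [a1 hc, (b3 hd).1]
  · linarith [a1 hc, b4 hd]
  · linarith [a1 hc, b5 hd]
  · linarith [a2 hc, (b3 hd).1]
  · linarith [a2 hc, b4 hd]
  · linarith [a2 hc, b5 hd]
  · linarith [(a3 hc).2, b4 hd]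
  · linarith [(a3 hc).2, b5 hd]
  · linarith [a4 hc, b5 hd]

/-- adding `m` at the place `v` -/
def upd (f : ℕ → ℕ) (v m : ℕ) : ℕ → ℕ := fun u => f u + if u = v then m else 0

theorem upd_dig {n v m : ℕ} (hv : v < n) (f : ℕ → ℕ) :
    ∑ u ∈ Finset.range n, upd f v m u * 65536 ^ u =
      Nat.add (∑ u ∈ Finset.range n, f u * 65536 ^ u) (Nat.shiftLeft m (Nat.mul 16 v)) := by
  have h1 : ∀ u ∈ Finset.range n, upd f v m u * 65536 ^ u =
      f u * 65536 ^ u + if u = v then m * 65536 ^ v else 0 := by
    intro u _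
    unfold upd
    split_ifs with h
    · subst h; ring
    · ring
  rw [Finset.sum_congr rfl h1, Finset.sum_add_distrib, Finset.sum_ite_eq' (Finset.range n) v,
    if_pos (Finset.mem_range.2 hv), shiftLeft_one_mul]
  have h2 : (65536 : ℕ) ^ v = 2 ^ (Nat.mul 16 v) := by
    show (65536 : ℕ) ^ v = 2 ^ (16 * v)
    rw [pow_mul]
    norm_num
  rw [← h2]
  rfl

theorem upd_val {n v m : ℕ} (hv : v < n) (f : ℕ → ℕ) (th : ℕ → ℝ) :
    ∑ u ∈ Finset.range n, (upd f v m u : ℝ) * th u =
      (∑ u ∈ Finset.range n, (f u : ℝ) * th u) + m * th v := by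
  have h1 : ∀ u ∈ Finset.range n, (upd f v m u : ℝ) * th u =
      f u * th u + if u = v then (m : ℝ) * th v else 0 := by
    intro u _
    unfold upd
    split_ifs with h
    · subst h; push_cast; ring
    · push_cast; ring
  rw [Finset.sum_congr rfl h1, Finset.sum_add_distrib, Finset.sum_ite_eq' (Finset.range n) v,
    if_pos (Finset.mem_range.2 hv)]

theorem upd_le {f : ℕ → ℕ} {v m T : ℕ} (h : ∀ u, f u ≤ T) (u : ℕ) : upd f v m u ≤ T + m := by
  unfold upd
  have := h u
  split_ifs <;> omega

/-- the invariant -/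
structure Inv (n : ℕ) (th : ℕ → ℝ) (f g : ℕ → ℕ) (P N cp cn S Tt : ℕ) : Prop where
  hP : P = ∑ u ∈ Finset.range n, f u * 65536 ^ u
  hN : N = ∑ u ∈ Finset.range n, g u * 65536 ^ u
  hf : ∀ u, f u ≤ Tt
  hg : ∀ u, g u ≤ Tt
  nn : 0 ≤ (∑ u ∈ Finset.range n, (f u : ℝ) * th u) - (∑ u ∈ Finset.range n, (g u : ℝ) * th u) +
    ((cp : ℝ) - cn) * Real.pi
  ps : 0 < S → 0 < (∑ u ∈ Finset.range n, (f u : ℝ) * th u) -
    (∑ u ∈ Finset.range n, (g u : ℝ) * th u) + ((cp : ℝ) - cn) * Real.pi

theorem inv_end {n : ℕ} {th : ℕ → ℝ} {f g : ℕ → ℕ} {P N cp cn S Tt : ℕ}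
    (h : Inv n th f g P N cp cn S Tt) (h1 : P = N) (h2 : Tt < 65536) (h3 : cp ≤ cn)
    (h4 : 0 < S ∨ cp < cn) : False := by
  have hd := st_DIG 65536 n f g (fun v _ => (h.hf v).trans_lt h2) (fun v _ => (h.hg v).trans_lt h2)
    (by rw [← h.hP, ← h.hN, h1])
  have he : ∑ u ∈ Finset.range n, (f u : ℝ) * th u = ∑ u ∈ Finset.range n, (g u : ℝ) * th u :=
    Finset.sum_congr rfl fun u hu => by rw [hd u (Finset.mem_range.1 hu)]
  have n1 := h.nn
  have n2 := h.ps
  rw [he, sub_self, zero_add] at n1 n2
  have hpi := Real.pi_pos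
  have h5 : (cp : ℝ) ≤ cn := by exact_mod_cast h3
  rcases h4 with h4 | h4
  · have := n2 h4
    nlinarith
  · have h6 : (cp : ℝ) < cn := by exact_mod_cast h4
    nlinarith

/-- value of a digit pair -/
theorem inv_zero (n : ℕ) (th : ℕ → ℝ) : Inv n th (fun _ => 0) (fun _ => 0) 0 0 0 0 0 0 := by
  refine ⟨?_, ?_, fun _ => le_rfl, fun _ => le_rfl, ?_, ?_⟩ <;> simp

theorem ang_eq (th : ℕ → ℝ) (x ij il jl m : ℕ) : (m : ℝ) * ang th x ij il jl =
    m * th (pls x ij il jl) - m * th (mns x ij il jl) + ((cond (Nat.beq x 1) m 0 : ℕ) : ℝ) * Real.pi := by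
  unfold ang
  split_ifs with h
  · rw [beq_iff.2 h]; simp only [cond_true]; ring
  · rw [beq_false_iff.2 h]; simp only [cond_false]; push_cast; ring

/-- soundness with an invariant -/
theorem farkas_sound (h1 : ST_HINGE) (h2 : ST_SIDE) (h3 : ST_ANGPOS) {K C : ℕ} {th len : ℕ → ℝ}
    {α β : ℝ} (hM : Model K th len) (hαβ : α < β) (hC : SemC K C len α β) (L : List ℕ) :
    ∀ (f g : ℕ → ℕ) (P N cp cn S Tt : ℕ), Inv (tri K) th f g P N cp cn S Tt →
      farkas K C L P N cp cn S Tt = true → False := by
  induction L with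
  | nil =>
    intro f g P N cp cn S Tt hI hf
    change and (Nat.beq P N) (and (Nat.blt Tt 65536)
      (and (Nat.ble cp cn) (or (Nat.blt 0 S) (Nat.blt cp cn)))) = true at hf
    rw [Bool.and_eq_true, Bool.and_eq_true, Bool.and_eq_true, Bool.or_eq_true, beq_iff, blt_iff,
      ble_iff, blt_iff, blt_iff] at hf
    exact inv_end hI hf.1 hf.2.1 hf.2.2.1 hf.2.2.2
  | cons e L ih =>
    intro f g P N cp cn S Tt hI hf
    change force (Nat.mod e 4) (fun kind => force (Nat.mod (Nat.shiftRight e 2) 4096) fun m =>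
      corner K (Nat.mod (Nat.shiftRight e 14) 16384) false fun x ij il jl =>
      cond (Nat.beq kind 0)
        (farkas K C L (Nat.add P (Nat.shiftLeft m (Nat.mul 16 (pls x ij il jl))))
          (Nat.add N (Nat.shiftLeft m (Nat.mul 16 (mns x ij il jl))))
          (Nat.add cp (cond (Nat.beq x 1) m 0)) cn (Nat.add S m) (Nat.add Tt m))
        (corner K (Nat.shiftRight e 28) false fun x' ij' il' jl' =>
          cond (and
              (or (and (Nat.beq ij ij') (Nat.beq jl jl'))
                (or (and (eqv C (ad1 x ij il jl) (ad1 x' ij' il' jl'))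
                    (eqv C (ad2 x ij il jl) (ad2 x' ij' il' jl')))
                  (and (eqv C (ad1 x ij il jl) (ad2 x' ij' il' jl'))
                    (eqv C (ad2 x ij il jl) (ad1 x' ij' il' jl')))))
              (cond (Nat.beq kind 1) (ltc C (opp x' ij' il' jl') (opp x ij il jl))
                (eqv C (opp x' ij' il' jl') (opp x ij il jl))))
            (farkas K C L (Nat.add P (Nat.add (Nat.shiftLeft m (Nat.mul 16 (pls x ij il jl)))
                (Nat.shiftLeft m (Nat.mul 16 (mns x' ij' il' jl')))))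
              (Nat.add N (Nat.add (Nat.shiftLeft m (Nat.mul 16 (mns x ij il jl)))
                (Nat.shiftLeft m (Nat.mul 16 (pls x' ij' il' jl')))))
              (Nat.add cp (cond (Nat.beq x 1) m 0)) (Nat.add cn (cond (Nat.beq x' 1) m 0))
              (Nat.add S (cond (Nat.beq kind 1) m 0)) (Nat.add Tt (Nat.add m m)))
            false)) = true at hf
    rw [force_eq, force_eq] at hf
    obtain ⟨i, j, l, hij, hjl, hl, hf⟩ := corner_true hf
    have q1 : tri j + i < tri K := tri_lt hij (by omega)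
    have q2 : tri l + i < tri K := tri_lt (by omega) hl
    have q3 : tri l + j < tri K := tri_lt hjl hl
    obtain ⟨kind, hkind⟩ : ∃ k, k = Nat.mod e 4 := ⟨_, rfl⟩
    obtain ⟨m, hm⟩ : ∃ m, m = Nat.mod (Nat.shiftRight e 2) 4096 := ⟨_, rfl⟩
    obtain ⟨x, hx⟩ : ∃ x, x = Nat.shiftRight (Nat.mod (Nat.shiftRight e 14) 16384) 12 := ⟨_, rfl⟩
    rw [← hkind, ← hm, ← hx] at hf
    have p1 : pls x (tri j + i) (tri l + i) (tri l + j) < tri K := by
      unfold pls sel; cases Nat.beq x 0 <;> cases Nat.beq x 1 <;> simpa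
    have p2 : mns x (tri j + i) (tri l + i) (tri l + j) < tri K := by
      unfold mns sel; cases Nat.beq x 0 <;> cases Nat.beq x 1 <;> simpa
    have hang := h3 K th len hM i j l x hij hjl hl _ _ _ rfl rfl rfl
    have e1 := ang_eq th x (tri j + i) (tri l + i) (tri l + j) m
    cases hk : Nat.beq kind 0
    · rw [hk] at hf
      change corner K _ false _ = true at hf
      obtain ⟨i', j', l', hij', hjl', hl', hf⟩ := corner_true hf
      have q1' : tri j' + i' < tri K := tri_lt hij' (by omega)
      have q2' : tri l' + i' < tri K := tri_lt (by omega) hl'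
      have q3' : tri l' + j' < tri K := tri_lt hjl' hl'
      obtain ⟨x', hx'⟩ : ∃ x', x' = Nat.shiftRight (Nat.shiftRight e 28) 12 := ⟨_, rfl⟩
      rw [← hx'] at hf
      have p1' : pls x' (tri j' + i') (tri l' + i') (tri l' + j') < tri K := by
        unfold pls sel; cases Nat.beq x' 0 <;> cases Nat.beq x' 1 <;> simpa
      have p2' : mns x' (tri j' + i') (tri l' + i') (tri l' + j') < tri K := by
        unfold mns sel; cases Nat.beq x' 0 <;> cases Nat.beq x' 1 <;> simpa
      have e2 := ang_eq th x' (tri j' + i') (tri l' + i') (tri l' + j') m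
      -- bounds for adjacent sides
      have s1 : ad1 x (tri j + i) (tri l + i) (tri l + j) < tri K := by
        unfold ad1 sel; cases Nat.beq x 0 <;> cases Nat.beq x 1 <;> simpa
      have s2 : ad2 x (tri j + i) (tri l + i) (tri l + j) < tri K := by
        unfold ad2 sel; cases Nat.beq x 0 <;> cases Nat.beq x 1 <;> simpa
      have s1' : ad1 x' (tri j' + i') (tri l' + i') (tri l' + j') < tri K := by
        unfold ad1 sel; cases Nat.beq x' 0 <;> cases Nat.beq x' 1 <;> simpa
      have s2' : ad2 x' (tri j' + i') (tri l' + i') (tri l' + j') < tri K := by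
        unfold ad2 sel; cases Nat.beq x' 0 <;> cases Nat.beq x' 1 <;> simpa
      have o1 := opp_lt (x := x) hij hjl hl
      have o2 := opp_lt (x := x') hij' hjl' hl'
      cases hcond : (and
              (or (and (Nat.beq (tri j + i) (tri j' + i')) (Nat.beq (tri l + j) (tri l' + j')))
                (or (and (eqv C (ad1 x (tri j + i) (tri l + i) (tri l + j))
                      (ad1 x' (tri j' + i') (tri l' + i') (tri l' + j')))
                    (eqv C (ad2 x (tri j + i) (tri l + i) (tri l + j))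
                      (ad2 x' (tri j' + i') (tri l' + i') (tri l' + j'))))
                  (and (eqv C (ad1 x (tri j + i) (tri l + i) (tri l + j))
                      (ad2 x' (tri j' + i') (tri l' + i') (tri l' + j')))
                    (eqv C (ad2 x (tri j + i) (tri l + i) (tri l + j))
                      (ad1 x' (tri j' + i') (tri l' + i') (tri l' + j'))))))
              (cond (Nat.beq kind 1) (ltc C (opp x' (tri j' + i') (tri l' + i') (tri l' + j'))
                  (opp x (tri j + i) (tri l + i) (tri l + j)))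
                (eqv C (opp x' (tri j' + i') (tri l' + i') (tri l' + j'))
                  (opp x (tri j + i) (tri l + i) (tri l + j)))))
      · rw [hcond] at hf
        exact absurd hf (by exact Bool.false_ne_true)
      rw [hcond] at hf
      change farkas K C L _ _ _ _ _ _ = true at hf
      rw [Bool.and_eq_true, Bool.or_eq_true, Bool.or_eq_true, Bool.and_eq_true, Bool.and_eq_true,
        Bool.and_eq_true, beq_iff, beq_iff] at hcond
      obtain ⟨hadj, hopp⟩ := hcond
      -- the comparison of the angles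
      have hcmp : (len (opp x' (tri j' + i') (tri l' + i') (tri l' + j')) <
            len (opp x (tri j + i) (tri l + i) (tri l + j)) →
            ang th x' (tri j' + i') (tri l' + i') (tri l' + j') <
              ang th x (tri j + i) (tri l + i) (tri l + j)) ∧
          (len (opp x' (tri j' + i') (tri l' + i') (tri l' + j')) =
            len (opp x (tri j + i) (tri l + i) (tri l + j)) →
            ang th x' (tri j' + i') (tri l' + i') (tri l' + j') =
              ang th x (tri j + i) (tri l + i) (tri l + j)) := by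
        rcases hadj with ⟨ha, hb⟩ | ⟨ha, hb⟩ | ⟨ha, hb⟩
        · obtain ⟨rfl, rfl⟩ := tri_inj hij hij' ha
          obtain ⟨-, rfl⟩ := tri_inj hjl hjl' hb
          exact h2 K th len hM i j l x x' hij hjl hl _ _ _ rfl rfl rfl
        · exact h1 K th len hM i j l x i' j' l' x' hij hjl hl hij' hjl' hl' _ _ _ _ _ _ rfl rfl rfl
            rfl rfl rfl (Or.inl ⟨eqv_len hC s1 s1' ha, eqv_len hC s2 s2' hb⟩)
        · exact h1 K th len hM i j l x i' j' l' x' hij hjl hl hij' hjl' hl' _ _ _ _ _ _ rfl rfl rfl
            rfl rfl rfl (Or.inr ⟨eqv_len hC s1 s2' ha, eqv_len hC s2 s1' hb⟩)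
      have hm0 : (0 : ℝ) ≤ m := Nat.cast_nonneg m
      have hle : ang th x' (tri j' + i') (tri l' + i') (tri l' + j') ≤
            ang th x (tri j + i) (tri l + i) (tri l + j) := by
        cases hk1 : Nat.beq kind 1
        · rw [hk1] at hopp
          exact (hcmp.2 (eqv_len hC o2 o1 hopp)).le
        · rw [hk1] at hopp
          exact (hcmp.1 (ltc_len hαβ hC o2 o1 hopp)).le
      have hlt : 0 < (cond (Nat.beq kind 1) m 0 : ℕ) → 0 < (m : ℝ) *
          (ang th x (tri j + i) (tri l + i) (tri l + j) -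
            ang th x' (tri j' + i') (tri l' + i') (tri l' + j')) := by
        intro hpos
        cases hk1 : Nat.beq kind 1
        · rw [hk1] at hpos
          exact absurd hpos (lt_irrefl _)
        · rw [hk1] at hopp hpos
          have := hcmp.1 (ltc_len hαβ hC o2 o1 hopp)
          have hmp : (0 : ℝ) < m := by exact_mod_cast hpos
          exact mul_pos hmp (by linarith)
      have hge : 0 ≤ (m : ℝ) * (ang th x (tri j + i) (tri l + i) (tri l + j) -
            ang th x' (tri j' + i') (tri l' + i') (tri l' + j')) := mul_nonneg hm0 (by linarith)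
      refine ih (upd (upd f (pls x (tri j + i) (tri l + i) (tri l + j)) m)
          (mns x' (tri j' + i') (tri l' + i') (tri l' + j')) m)
        (upd (upd g (mns x (tri j + i) (tri l + i) (tri l + j)) m)
          (pls x' (tri j' + i') (tri l' + i') (tri l' + j')) m) _ _ _ _ _ _ ?_ hf
      have key : (∑ u ∈ Finset.range (tri K), ((upd (upd f (pls x (tri j + i) (tri l + i) (tri l + j)) m)
          (mns x' (tri j' + i') (tri l' + i') (tri l' + j')) m) u : ℝ) * th u) -
          (∑ u ∈ Finset.range (tri K), ((upd (upd g (mns x (tri j + i) (tri l + i) (tri l + j)) m)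
          (pls x' (tri j' + i') (tri l' + i') (tri l' + j')) m) u : ℝ) * th u) +
          (((Nat.add cp (cond (Nat.beq x 1) m 0) : ℕ) : ℝ) -
            ((Nat.add cn (cond (Nat.beq x' 1) m 0) : ℕ) : ℝ)) * Real.pi =
          ((∑ u ∈ Finset.range (tri K), (f u : ℝ) * th u) -
            (∑ u ∈ Finset.range (tri K), (g u : ℝ) * th u) + ((cp : ℝ) - cn) * Real.pi) +
          (m : ℝ) * (ang th x (tri j + i) (tri l + i) (tri l + j) -
            ang th x' (tri j' + i') (tri l' + i') (tri l' + j')) := by
        rw [upd_val p2', upd_val p1, upd_val p1', upd_val p2, mul_sub, e1, e2]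
        have c1 : ((Nat.add cp (cond (Nat.beq x 1) m 0) : ℕ) : ℝ) =
            (cp : ℝ) + ((cond (Nat.beq x 1) m 0 : ℕ) : ℝ) := Nat.cast_add _ _
        have c2 : ((Nat.add cn (cond (Nat.beq x' 1) m 0) : ℕ) : ℝ) =
            (cn : ℝ) + ((cond (Nat.beq x' 1) m 0 : ℕ) : ℝ) := Nat.cast_add _ _
        rw [c1, c2]
        ring
      refine ⟨?_, ?_, fun u => ?_, fun u => ?_, ?_, ?_⟩
      · rw [upd_dig p2', upd_dig p1, hI.hP]
        exact (Nat.add_assoc _ _ _).symm
      · rw [upd_dig p1', upd_dig p2, hI.hN]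
        exact (Nat.add_assoc _ _ _).symm
      · have := upd_le (v := mns x' (tri j' + i') (tri l' + i') (tri l' + j')) (m := m)
          (upd_le (v := pls x (tri j + i) (tri l + i) (tri l + j)) (m := m) hI.hf) u
        exact this.trans (le_of_eq (Nat.add_assoc _ _ _))
      · have := upd_le (v := pls x' (tri j' + i') (tri l' + i') (tri l' + j')) (m := m)
          (upd_le (v := mns x (tri j + i) (tri l + i) (tri l + j)) (m := m) hI.hg) u
        exact this.trans (le_of_eq (Nat.add_assoc _ _ _))
      · rw [key]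
        exact add_nonneg hI.nn hge
      · intro hS
        rw [key]
        have hS' : 0 < S + (cond (Nat.beq kind 1) m 0 : ℕ) := hS
        rcases Nat.eq_zero_or_pos S with h0 | h0
        · have := hlt (by omega)
          linarith [hI.nn]
        · linarith [hI.ps h0]
    · rw [hk] at hf
      change farkas K C L _ _ _ _ _ _ = true at hf
      have hm0 : (0 : ℝ) ≤ m := Nat.cast_nonneg m
      have hge : 0 ≤ (m : ℝ) * ang th x (tri j + i) (tri l + i) (tri l + j) := mul_nonneg hm0 hang.le
      refine ih (upd f (pls x (tri j + i) (tri l + i) (tri l + j)) m)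
        (upd g (mns x (tri j + i) (tri l + i) (tri l + j)) m) _ _ _ _ _ _ ?_ hf
      have key : (∑ u ∈ Finset.range (tri K),
          ((upd f (pls x (tri j + i) (tri l + i) (tri l + j)) m) u : ℝ) * th u) -
          (∑ u ∈ Finset.range (tri K),
          ((upd g (mns x (tri j + i) (tri l + i) (tri l + j)) m) u : ℝ) * th u) +
          (((Nat.add cp (cond (Nat.beq x 1) m 0) : ℕ) : ℝ) - (cn : ℝ)) * Real.pi =
          ((∑ u ∈ Finset.range (tri K), (f u : ℝ) * th u) -
            (∑ u ∈ Finset.range (tri K), (g u : ℝ) * th u) + ((cp : ℝ) - cn) * Real.pi) +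
          (m : ℝ) * ang th x (tri j + i) (tri l + i) (tri l + j) := by
        rw [upd_val p1, upd_val p2, e1]
        have c1 : ((Nat.add cp (cond (Nat.beq x 1) m 0) : ℕ) : ℝ) =
            (cp : ℝ) + ((cond (Nat.beq x 1) m 0 : ℕ) : ℝ) := Nat.cast_add _ _
        rw [c1]
        ring
      refine ⟨?_, ?_, fun u => upd_le hI.hf u, fun u => upd_le hI.hg u, ?_, ?_⟩
      · rw [upd_dig p1, hI.hP]
      · rw [upd_dig p2, hI.hN]
      · rw [key]
        exact add_nonneg hI.nn hge
      · intro hS
        rw [key]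
        have hS' : 0 < S + m := hS
        rcases Nat.eq_zero_or_pos S with h0 | h0
        · have hmp : (0 : ℝ) < m := by
            have : 0 < m := by omega
            exact_mod_cast this
          have := mul_pos hmp hang
          linarith [hI.nn]
        · linarith [hI.ps h0]

theorem st_FARKAS (h1 : ST_HINGE) (h2 : ST_SIDE) (h3 : ST_ANGPOS) : ST_FARKAS := by
  intro K C L hf th len α β hM _ hαβ hC
  exact farkas_sound h1 h2 h3 hM hαβ hC L _ _ _ _ _ _ _ _ (inv_zero _ _) hf

end Pool.Agent.Helper81.CPX
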