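import Pool.Agent.Helper14.CPX.Stmts

/-! Rows HINGE, SIDE, ANGPOS. -/

set_option autoImplicit false

namespace Pool.Agent.Helper81.CPX

open Pool.Agent.Helper14.CPX Real

/-- the facts on a corner of a triangle -/
structure Corner (θ a b c : ℝ) : Prop where
  pos : 0 < θ
  lt : θ < π
  ha : 0 < a
  hb : 0 < b
  hc : 0 < c
  law : a ^ 2 = b ^ 2 + c ^ 2 - 2 * b * c * cos θ

theorem corner_of {K : ℕ} {th len : ℕ → ℝ} (h : Model K th len) {i j l : ℕ} (x : ℕ) (hij : i < j)
    (hjl : j < l) (hl : l < K) {ij il jl : ℕ} (e1 : ij = tri j + i) (e2 : il = tri l + i)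
    (e3 : jl = tri l + j) :
    Corner (ang th x ij il jl) (len (opp x ij il jl)) (len (ad1 x ij il jl)) (len (ad2 x ij il jl)) := by
  have p1 := h.pos i j hij (by omega)
  have p2 := h.pos i l (by omega) hl
  have p3 := h.pos j l hjl hl
  have a0 := h.a0 i j l hij hjl hl
  have a1 := h.a1 i j l hij hjl hl
  have a2 := h.a2 i j l hij hjl hl
  have c0 := h.c0 i j l hij hjl hl
  have c1 := h.c1 i j l hij hjl hl
  have c2 := h.c2 i j l hij hjl hl
  rw [← e1, ← e2, ← e3] at *
  rcases Nat.lt_trichotomy x 1 with hx | rfl | hx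
  · obtain rfl : x = 0 := by omega
    refine ⟨?_, ?_, p3, p1, p2, ?_⟩
    · show 0 < th il - th ij + (if (0 : ℕ) = 1 then π else 0)
      rw [if_neg (by norm_num)]; linarith
    · show th il - th ij + (if (0 : ℕ) = 1 then π else 0) < π
      rw [if_neg (by norm_num)]; linarith
    · show len jl ^ 2 = len ij ^ 2 + len il ^ 2 - 2 * len ij * len il * cos (th il - th ij + (if (0 : ℕ) = 1 then π else 0))
      rw [if_neg (by norm_num), add_zero]; exact c0
  · refine ⟨?_, ?_, p2, p1, p3, ?_⟩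
    · show 0 < th ij - th jl + (if (1 : ℕ) = 1 then π else 0)
      rw [if_pos rfl]; linarith
    · show th ij - th jl + (if (1 : ℕ) = 1 then π else 0) < π
      rw [if_pos rfl]; linarith
    · show len il ^ 2 = len ij ^ 2 + len jl ^ 2 - 2 * len ij * len jl * cos (th ij - th jl + (if (1 : ℕ) = 1 then π else 0))
      have : cos (th ij - th jl + (if (1 : ℕ) = 1 then π else 0)) = - cos (th jl - th ij) := by
        rw [if_pos rfl, cos_add_pi, ← cos_neg (th ij - th jl), neg_sub]
      rw [this]; linarith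
  · obtain ⟨y, rfl⟩ : ∃ y, x = y + 2 := ⟨x - 2, by omega⟩
    have hy : y + 2 ≠ 1 := by omega
    refine ⟨?_, ?_, p1, p2, p3, ?_⟩
    · show 0 < th jl - th il + (if y + 2 = 1 then π else 0)
      rw [if_neg hy]; linarith
    · show th jl - th il + (if y + 2 = 1 then π else 0) < π
      rw [if_neg hy]; linarith
    · show len ij ^ 2 = len il ^ 2 + len jl ^ 2 - 2 * len il * len jl * cos (th jl - th il + (if y + 2 = 1 then π else 0))
      rw [if_neg hy, add_zero]; exact c2

theorem Corner.symm {θ a b c : ℝ} (h : Corner θ a b c) : Corner θ a c b :=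
  ⟨h.pos, h.lt, h.ha, h.hc, h.hb, by have := h.law; linarith⟩

theorem hinge {θ θ' a a' b c : ℝ} (h : Corner θ a b c) (h' : Corner θ' a' b c) :
    (a' < a → θ' < θ) ∧ (a' = a → θ' = θ) := by
  have hbc : 0 < b * c := mul_pos h.hb h.hc
  have l1 := h.law
  have l2 := h'.law
  have m1 : θ ∈ Set.Icc 0 π := ⟨h.pos.le, h.lt.le⟩
  have m2 : θ' ∈ Set.Icc 0 π := ⟨h'.pos.le, h'.lt.le⟩
  refine ⟨fun ha => ?_, fun ha => ?_⟩
  · have h1 : a' ^ 2 < a ^ 2 := pow_lt_pow_left₀ ha h'.ha.le (by norm_num)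
    have h2 : 2 * (b * c) * cos θ < 2 * (b * c) * cos θ' := by nlinarith
    have h3 : cos θ < cos θ' := lt_of_mul_lt_mul_left h2 (by positivity)
    exact (strictAntiOn_cos.lt_iff_gt m1 m2).1 h3
  · subst ha
    have h2 : 2 * (b * c) * cos θ = 2 * (b * c) * cos θ' := by nlinarith
    have h3 : cos θ = cos θ' := mul_left_cancel₀ (by positivity) h2
    exact (injOn_cos m1 m2 h3).symm

theorem side {α β γ a b c : ℝ} (h1 : Corner α a b c) (h2 : Corner β b a c) (h3 : Corner γ c a b) :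
    (b < a → β < α) ∧ (b = a → β = α) := by
  have ha := h1.ha
  have hb := h1.hb
  have hc := h1.hc
  have l1 := h1.law
  have l2 := h2.law
  have l3 := h3.law
  have m1 : α ∈ Set.Icc 0 π := ⟨h1.pos.le, h1.lt.le⟩
  have m2 : β ∈ Set.Icc 0 π := ⟨h2.pos.le, h2.lt.le⟩
  have g1 : -1 < cos γ := by
    rw [← cos_pi]
    exact strictAntiOn_cos ⟨h3.pos.le, h3.lt.le⟩ ⟨pi_pos.le, le_rfl⟩ h3.lt
  have g2 : 0 < (a + b) ^ 2 - c ^ 2 := by
    have : 0 < 2 * a * b * (1 + cos γ) := by
      have : 0 < 1 + cos γ := by linarith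
      positivity
    nlinarith
  have key : 2 * a * b * c * (cos β - cos α) = (a - b) * ((a + b) ^ 2 - c ^ 2) := by
    have e1 : 2 * b * c * cos α = b ^ 2 + c ^ 2 - a ^ 2 := by linarith
    have e2 : 2 * a * c * cos β = a ^ 2 + c ^ 2 - b ^ 2 := by linarith
    calc 2 * a * b * c * (cos β - cos α) = b * (2 * a * c * cos β) - a * (2 * b * c * cos α) := by ring
      _ = b * (a ^ 2 + c ^ 2 - b ^ 2) - a * (b ^ 2 + c ^ 2 - a ^ 2) := by rw [e1, e2]
      _ = _ := by ring
  have hp : 0 < 2 * a * b * c := by positivity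
  refine ⟨fun hlt => ?_, fun heq => ?_⟩
  · have h4 : 0 < 2 * a * b * c * (cos β - cos α) := by
      rw [key]; exact mul_pos (by linarith) g2
    have h5 : 0 < cos β - cos α := (mul_pos_iff_of_pos_left hp).1 h4
    exact (strictAntiOn_cos.lt_iff_gt m1 m2).1 (by linarith)
  · have h4 : 2 * a * b * c * (cos β - cos α) = 0 := by
      rw [key, heq]; ring
    have h5 : cos β - cos α = 0 := (mul_eq_zero.1 h4).resolve_left hp.ne'
    exact (injOn_cos m2 m1 (by linarith))

theorem st_ANGPOS : ST_ANGPOS := by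
  intro K th len h i j l x hij hjl hl ij il jl e1 e2 e3
  exact (corner_of h x hij hjl hl e1 e2 e3).pos

theorem st_HINGE : ST_HINGE := by
  intro K th len h i j l x i' j' l' x' hij hjl hl hij' hjl' hl' ij il jl ij' il' jl' e1 e2 e3 e1' e2' e3' hor
  have c1 := corner_of h x hij hjl hl e1 e2 e3
  have c2 := corner_of h x' hij' hjl' hl' e1' e2' e3'
  rcases hor with ⟨h1, h2⟩ | ⟨h1, h2⟩
  · rw [← h1, ← h2] at c2
    exact hinge c1 c2
  · rw [← h1, ← h2] at c2
    exact hinge c1 c2.symm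

theorem st_SIDE : ST_SIDE := by
  intro K th len h i j l x x' hij hjl hl ij il jl e1 e2 e3
  have c0 := corner_of h 0 hij hjl hl e1 e2 e3
  have c1 := corner_of h 1 hij hjl hl e1 e2 e3
  have c2 := corner_of h 2 hij hjl hl e1 e2 e3
  have hred : ∀ y : ℕ, ∃ z : ℕ, (z = 0 ∨ z = 1 ∨ z = 2) ∧ opp y ij il jl = opp z ij il jl ∧
      ang th y ij il jl = ang th z ij il jl := by
    intro y
    rcases Nat.lt_trichotomy y 1 with hx | rfl | hx
    · obtain rfl : y = 0 := by omega
      exact ⟨0, Or.inl rfl, rfl, rfl⟩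
    · exact ⟨1, Or.inr (Or.inl rfl), rfl, rfl⟩
    · obtain ⟨z, rfl⟩ : ∃ z, y = z + 2 := ⟨y - 2, by omega⟩
      refine ⟨2, Or.inr (Or.inr rfl), rfl, ?_⟩
      show th jl - th il + (if z + 2 = 1 then π else 0) = th jl - th il + (if 2 = 1 then π else 0)
      rw [if_neg (by omega), if_neg (by norm_num)]
  obtain ⟨z, hz, ez, fz⟩ := hred x
  obtain ⟨z', hz', ez', fz'⟩ := hred x'
  rw [ez, ez', fz, fz']
  change Corner _ (len jl) (len ij) (len il) at c0
  change Corner _ (len il) (len ij) (len jl) at c1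
  change Corner _ (len ij) (len il) (len jl) at c2
  rcases hz with rfl | rfl | rfl <;> rcases hz' with rfl | rfl | rfl
  · exact ⟨fun h => absurd h (lt_irrefl _), fun _ => rfl⟩
  · exact side c0.symm c1.symm c2.symm
  · exact side c0 c2.symm c1.symm
  · exact side c1.symm c0.symm c2
  · exact ⟨fun h => absurd h (lt_irrefl _), fun _ => rfl⟩
  · exact side c1 c2 c0.symm
  · exact side c2.symm c0 c1
  · exact side c2 c1 c0
  · exact ⟨fun h => absurd h (lt_irrefl _), fun _ => rfl⟩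

end Pool.Agent.Helper81.CPX
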